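import Pool.Agent.Work.MP_c20ce7_bA.LND
import Pool.Agent.Work.MP_c20ce7_bA.Mod1
import Pool.Agent.Work.MP_c20ce7_bE.Gen

set_option autoImplicit false
set_option linter.unusedSectionVars false
set_option linter.unusedSimpArgs false

/-!
# BASE, (c): no block of the slice variables kills a vector of the partial Fourier transform (helper93)
-/

open MvPolynomial

noncomputable section

namespace Pool.DM

attribute [local instance] instAddCommGroupM instModuleMvPolynomialComplexM instModuleComplexLoc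

/-! ## The derivation -/

/-- The product of the three other matrices. -/
def Rm (i : Fin 4) : Fin 2 → Fin 2 → MvPolynomial Q4 ℂ := ml2 (bm (i + 1)) (ml2 (bm (i + 2)) (bm (i + 3)))

theorem pd_Rm (i : Fin 4) (a b c l : Fin 2) : pderiv (i, a, b) (Rm i c l) = 0 := by
  have h := bm_PQ i
  have h1 : ∀ c l, pderiv (i, a, b) (bm (i + 1) c l) = 0 := h.dq a b
  have h2 : ∀ c l, pderiv (i, a, b) (ml2 (bm (i + 2)) (bm (i + 3)) c l) = 0 := h.ds a b
  rw [Rm, ml2, Fin.sum_univ_two, map_add, Derivation.leibniz, Derivation.leibniz, h1, h1, h2, h2]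
  simp only [smul_zero, add_zero]

theorem pd_bm (i : Fin 4) (a b c l : Fin 2) :
    pderiv (i, a, b) (bm i c l) = if a = c ∧ b = l then 1 else 0 := (bm_PQ i).dp a b c l

/-- The derivation `-R_10 ∂_(i,0,0) + R_00 ∂_(i,0,1)`. -/
def DD (i : Fin 4) : Derivation ℂ (MvPolynomial Q4 ℂ) (MvPolynomial Q4 ℂ) :=
  (-(Rm i 1 0)) • pderiv (i, 0, 0) + Rm i 0 0 • pderiv (i, 0, 1)

theorem DD_apply (i : Fin 4) (p : MvPolynomial Q4 ℂ) :
    DD i p = -(Rm i 1 0) * pderiv (i, 0, 0) p + Rm i 0 0 * pderiv (i, 0, 1) p := rfl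

theorem DD_Rm (i : Fin 4) (a b : Fin 2) : DD i (Rm i a b) = 0 := by
  rw [DD_apply, pd_Rm, pd_Rm, mul_zero, mul_zero, add_zero]

theorem DD_b1 (i : Fin 4) (b : Fin 2) : DD i (bm i 1 b) = 0 := by
  rw [DD_apply, pd_bm, pd_bm]
  simp

theorem DD_b00 (i : Fin 4) : DD i (bm i 0 0) = -(Rm i 1 0) := by
  rw [DD_apply, pd_bm, pd_bm]
  simp

theorem DD_b01 (i : Fin 4) : DD i (bm i 0 1) = Rm i 0 0 := by
  rw [DD_apply, pd_bm, pd_bm]
  simp

theorem Del_Rm (i : Fin 4) : Del =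
    (bm i 0 0 * Rm i 0 0 + bm i 0 1 * Rm i 1 0 + bm i 1 0 * Rm i 0 1 + bm i 1 1 * Rm i 1 1) ^ 2 -
      4 * ((bm i 0 0 * bm i 1 1 - bm i 0 1 * bm i 1 0) * dt2 (Rm i)) := by
  rw [Del_rot i]
  simp only [dl3, trc, dt2, Rm, ml2, Fin.sum_univ_two]
  ring

theorem DD_dt (i : Fin 4) : DD i (dt2 (Rm i)) = 0 := by
  rw [dt2, map_sub, Derivation.leibniz, Derivation.leibniz, DD_Rm, DD_Rm, DD_Rm, DD_Rm]
  simp

theorem DD_Del (i : Fin 4) : DD i Del = 4 * dt2 (Rm i) * (bm i 1 1 * Rm i 1 0 + bm i 1 0 * Rm i 0 0) := by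
  rw [Del_Rm i]
  simp only [map_sub, map_add, Derivation.leibniz, Derivation.leibniz_pow, smul_eq_mul, DD_Rm, DD_b1, DD_b00, DD_b01,
    DD_dt, der_four]
  simp only [mul_zero, add_zero, zero_add, nsmul_eq_mul]
  push_cast
  ring

theorem DD_DD_Del (i : Fin 4) : DD i (DD i Del) = 0 := by
  rw [DD_Del]
  simp only [map_add, Derivation.leibniz, smul_eq_mul, DD_Rm, DD_b1, DD_dt, der_four, mul_zero, add_zero]

theorem DD_Del_ne (i : Fin 4) : DD i Del ≠ 0 := by
  intro h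
  have h1 := congrArg (eval fun q : Q4 => if q.1 = i then (if q.2.1 = 1 ∧ q.2.2 = 0 then (1 : ℂ) else 0) else
    (if q.2.1 = q.2.2 then 1 else 0)) h
  have e1 : i + 1 ≠ i := by clear h h1; revert i; decide
  have e2 : i + 2 ≠ i := by clear h h1; revert i; decide
  have e3 : i + 3 ≠ i := by clear h h1; revert i; decide
  rw [DD_Del] at h1
  simp only [Rm, dt2, ml2, bm, Fin.sum_univ_two, map_mul, map_add, map_sub, eval_X, map_ofNat, map_zero] at h1
  simp [e1, e2, e3] at h1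

/-! ## The derivation in the signed coordinates -/

section Sg

variable {σ : Type} [Fintype σ] [DecidableEq σ] {L : Type} [AddCommGroup L] [Module ℂ L]

/-- The derivation in the coordinates `σ`. -/
def DS (κ : Q4 → σ) (ε : Q4 → ℂ) (i : Fin 4) : Derivation ℂ (MvPolynomial σ ℂ) (MvPolynomial σ ℂ) :=
  (psS κ ε (-(Rm i 1 0)) * C (ε (i, 0, 0))) • pderiv (κ (i, 0, 0)) +
    (psS κ ε (Rm i 0 0) * C (ε (i, 0, 1))) • pderiv (κ (i, 0, 1))

theorem DS_apply (κ : Q4 → σ) (ε : Q4 → ℂ) (i : Fin 4) (p : MvPolynomial σ ℂ) :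
    DS κ ε i p = (psS κ ε (-(Rm i 1 0)) * C (ε (i, 0, 0))) * pderiv (κ (i, 0, 0)) p +
      (psS κ ε (Rm i 0 0) * C (ε (i, 0, 1))) * pderiv (κ (i, 0, 1)) p := rfl

variable {κ : Q4 → σ} {ε : Q4 → ℂ}

theorem DS_psS (hκ : Function.Injective κ) (hε : ∀ q, ε q * ε q = 1) (i : Fin 4) (p : MvPolynomial Q4 ℂ) :
    DS κ ε i (psS κ ε p) = psS κ ε (DD i p) := by
  have e : ∀ q, (C (ε q) * C (ε q) : MvPolynomial σ ℂ) = 1 := fun q => by rw [← C_mul, hε, C_1]
  rw [DS_apply, psS_pd hκ, psS_pd hκ, DD_apply, map_add, map_mul, map_mul]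
  linear_combination psS κ ε (-(Rm i 1 0)) * psS κ ε (pderiv (i, 0, 0) p) * e (i, 0, 0) +
    psS κ ε (Rm i 0 0) * psS κ ε (pderiv (i, 0, 1) p) * e (i, 0, 1)

theorem DS_DS_X (hκ : Function.Injective κ) (hε : ∀ q, ε q * ε q = 1) (i : Fin 4) (k : σ) :
    DS κ ε i (DS κ ε i (X k)) = 0 := by
  have h1 : ∀ c : ℂ, DS κ ε i (C c) = 0 := fun c => by
    rw [← MvPolynomial.algebraMap_eq, Derivation.map_algebraMap]
  have h2 : ∀ a b, DS κ ε i (psS κ ε (Rm i a b)) = 0 := fun a b => by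
    rw [DS_psS hκ hε, DD_Rm, map_zero]
  have h3 : DS κ ε i (psS κ ε (-(Rm i 1 0))) = 0 := by
    rw [map_neg, map_neg, h2, neg_zero]
  have h4 : ∀ l : σ, DS κ ε i (pderiv l (X k)) = 0 := by
    intro l
    by_cases h : l = k
    · rw [h, pderiv_X_self, ← C_1, h1]
    · rw [pderiv_X_of_ne (Ne.symm h), map_zero]
  conv_lhs => rw [DS_apply κ ε i (X k)]
  simp only [map_add, Derivation.leibniz, h1, h2, h3, h4, smul_zero, add_zero]

theorem psS_inj (hκ : Function.Injective κ) (hε : ∀ q, ε q * ε q = 1) : Function.Injective (psS κ ε) := by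
  have h0 : ∀ q, ε q ≠ 0 := fun q h => by
    have := hε q
    rw [h, mul_zero] at this
    exact zero_ne_one this
  have e : psS κ ε = (rename κ).comp (aeval fun q => C (ε q) * X q) := by
    apply MvPolynomial.algHom_ext
    intro q
    rw [psS_X, AlgHom.comp_apply, aeval_X, map_mul, rename_C, rename_X]
  have e2 : (aeval (R := ℂ) fun q : Q4 => (C (ε q) * X q : MvPolynomial Q4 ℂ)).comp
      (aeval fun q : Q4 => (C (ε q) * X q : MvPolynomial Q4 ℂ)) = AlgHom.id ℂ _ := by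
    apply MvPolynomial.algHom_ext
    intro q
    rw [AlgHom.comp_apply, aeval_X, map_mul, aeval_X, AlgHom.id_apply, ← MvPolynomial.algebraMap_eq, AlgHom.commutes,
      MvPolynomial.algebraMap_eq, ← mul_assoc, ← C_mul, hε, C_1, one_mul]
  have h1 : Function.Injective (aeval (R := ℂ) fun q : Q4 => (C (ε q) * X q : MvPolynomial Q4 ℂ)) := by
    intro p r hpr
    have h2 := congrArg (aeval (R := ℂ) fun q : Q4 => (C (ε q) * X q : MvPolynomial Q4 ℂ)) hpr
    rw [← AlgHom.comp_apply, ← AlgHom.comp_apply, e2] at h2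
    exact h2
  rw [e]
  exact (rename_injective κ hκ).comp h1

theorem DS_DelS (hκ : Function.Injective κ) (hε : ∀ q, ε q * ε q = 1) (i : Fin 4) :
    DS κ ε i (DS κ ε i (DelS κ ε)) = 0 := by
  rw [DelS, DS_psS hκ hε, DS_psS hκ hε, DD_DD_Del, map_zero]

theorem DS_DelS_ne (hκ : Function.Injective κ) (hε : ∀ q, ε q * ε q = 1) (i : Fin 4) :
    DS κ ε i (DelS κ ε) ≠ 0 := by
  rw [DelS, DS_psS hκ hε]
  intro h
  exact DD_Del_ne i (psS_inj hκ hε (by rw [h, map_zero]))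

/-- **(c1).** No block of the derivations kills a vector. -/
theorem blk_kill {W : WMod σ L} {v : L} (hv : VS κ ε W v) {F : MvPolynomial σ ℂ}
    (hF : ∀ q, pderiv (κ q) F = 0) {A : σ → Prop} {D : ℕ} (hg : W.VGen A (F * DelS κ ε) D v) (i : Fin 4) (u : L)
    (h : ∀ a b, W.d (X (κ (i, a, b))) u = 0) : u = 0 := by
  have hF0 : F ≠ 0 := by
    rintro rfl
    have h1 := hg.deg.2
    rw [zero_mul, map_zero, Polynomial.coeff_zero] at h1
    exact h1 rfl
  obtain ⟨N, g, hN⟩ := hg.frac u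
  have key : ∀ a b, DelS κ ε * pderiv (κ (i, a, b)) g =
      ((N : ℂ) + 1 / 2) • (g * pderiv (κ (i, a, b)) (DelS κ ε)) := by
    intro a b
    have he : W.x (F * DelS κ ε) (W.d (X (κ (i, a, b))) v) =
        W.x (C (-(1 / 2)) * (F * pderiv (κ (i, a, b)) (DelS κ ε))) v := by
      rw [← W.x_x_app, hv.d, map_smul, W.x_x_app, ← smul_eq_C_mul, map_smul, LinearMap.smul_apply]
    have h1 := d_frac W he hN
    rw [h, map_zero] at h1
    have h2 := hg.free _ h1.symm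
    have h3 : pderiv (κ (i, a, b)) (F * DelS κ ε) = F * pderiv (κ (i, a, b)) (DelS κ ε) := by
      rw [Derivation.leibniz, hF, smul_zero, add_zero, smul_eq_mul]
    rw [h3] at h2
    have h4 : F * (DelS κ ε * pderiv (κ (i, a, b)) g -
        ((N : ℂ) + 1 / 2) • (g * pderiv (κ (i, a, b)) (DelS κ ε))) = 0 := by
      rw [← h2, smul_eq_C_mul, C_add]
      have e1 : (C (-(1 / 2)) : MvPolynomial σ ℂ) = - C (1 / 2) := by rw [C_neg]
      rw [e1]
      ring
    exact sub_eq_zero.1 ((mul_eq_zero.1 h4).resolve_left hF0)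
  have h5 : DelS κ ε * DS κ ε i g = ((N : ℂ) + 1 / 2) • (g * DS κ ε i (DelS κ ε)) := by
    rw [DS_apply, DS_apply, smul_eq_C_mul]
    have k0 := key 0 0
    have k1 := key 0 1
    rw [smul_eq_C_mul] at k0 k1
    linear_combination (psS κ ε (-(Rm i 1 0)) * C (ε (i, 0, 0))) * k0 + (psS κ ε (Rm i 0 0) * C (ε (i, 0, 1))) * k1
  have hg0 : g = 0 := by
    refine lnd_zero (DS κ ε i) (DS_DS_X hv.inj hv.sgn i) (DS_DelS hv.inj hv.sgn i) (DS_DelS_ne hv.inj hv.sgn i)
      (c := (N : ℂ) + 1 / 2) ?_ h5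
    intro n hn
    have h6 : (2 * (n : ℤ) : ℂ) = ((2 * (N : ℤ) + 1 : ℤ) : ℂ) := by
      push_cast
      rw [hn]
      ring
    have h7 : 2 * (n : ℤ) = 2 * (N : ℤ) + 1 := by exact_mod_cast h6
    omega
  apply W.xpow_inj hg.inj N
  rw [hN, hg0, map_zero, map_zero, LinearMap.zero_apply]

end Sg

/-! ## The module `Wc` -/

theorem kaT_blk (N : Bk) (hN : SlT (N, 0, 0)) : ∃ i : Fin 4, ∀ a b, (kaT (i, a, b)).1 = N := by
  revert hN
  revert N
  decide

theorem pd_det_mm (N : Bk) (hN : ¬ SlT (N, 0, 0)) (k : Tau) (hk : SlT k) : pderiv k (mm N).det = 0 := by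
  have h : ∀ s t, pderiv k (mm N s t) = 0 := by
    intro s t
    rw [mm, pderiv_X_of_ne]
    intro h1
    apply hN
    rw [← h1] at hk
    exact hk
  rw [Matrix.det_fin_two, map_sub, Derivation.leibniz, Derivation.leibniz, h, h, h, h]
  simp

theorem pd_q0 (q : Q4) : pderiv (kaT q) q0 = 0 := by
  have h := kaT_sl q
  have e1 := pd_det_mm .a (by decide) _ h
  have e2 := pd_det_mm .q (by decide) _ h
  have e3 := pd_det_mm .u (by decide) _ h
  have e4 := pd_det_mm .l (by decide) _ h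
  rw [q0, Derivation.leibniz, Derivation.leibniz, Derivation.leibniz, e1, e2, e3, e4]
  simp

/-- **(c2).** -/
theorem Wc_block (hv : VS kaT epT WB v0) (hg : WB.VGen SlT GT 8 v0) (N : Bk) (hN : SlT (N, 0, 0)) (u : BMod)
    (h : ∀ s t, Wc.x (X (N, s, t)) u = 0) : u = 0 := by
  obtain ⟨i, hi⟩ := kaT_blk N hN
  refine blk_kill hv pd_q0 hg i u fun a b => ?_
  have h1 : kaT (i, a, b) = (N, (kaT (i, a, b)).2.1, (kaT (i, a, b)).2.2) := by
    rw [← hi a b]
  rw [h1, ← Wc_four.xA _ (by rw [← h1]; exact kaT_sl _)]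
  exact h _ _

/-- **(c3).** On a submodule the entries of a block of the slice variables are not all locally nilpotent. -/
theorem Wc_block_res (hv : VS kaT epT WB v0) (hg : WB.VGen SlT GT 8 v0) (N : Bk) (hN : SlT (N, 0, 0))
    (S : Submodule ℂ BMod) (hS : Wc.Stable S) (h0 : S ≠ ⊥) :
    ¬ ∀ s t, LocNil ((Wc.res S hS).x (mm N s t)) := by
  classical
  intro hl
  obtain ⟨u, hu, hu0⟩ := Submodule.exists_mem_ne_zero_of_ne_bot h0
  obtain ⟨g, hg1, hg2⟩ := (Wc.res S hS).exists_killed_fin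
    (Finset.univ.image fun q : Fin 2 × Fin 2 => mm N q.1 q.2)
    (fun f hf => by
      obtain ⟨q, -, rfl⟩ := Finset.mem_image.1 hf
      exact hl q.1 q.2) ⟨u, hu⟩ (fun h => hu0 (congrArg Subtype.val h))
  apply hg1
  apply Subtype.ext
  refine Wc_block hv hg N hN _ fun s t => ?_
  have h1 := hg2 (mm N s t) (Finset.mem_image.2 ⟨(s, t), Finset.mem_univ _, rfl⟩)
  exact congrArg Subtype.val h1

/-- **(c2)**, unconditional. -/
theorem Wc_blk (N : Bk) (hN : N = .p ∨ N = .r ∨ N = .ze ∨ N = .ka) (u : BMod)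
    (h : ∀ s t, Wc.x (X (N, s, t)) u = 0) : u = 0 := Wc_block WB_vs WB_vgen N hN u h

/-- **(c3)**, unconditional. -/
theorem Wc_blk_res (N : Bk) (hN : N = .p ∨ N = .r ∨ N = .ze ∨ N = .ka) (S : Submodule ℂ BMod) (hS : Wc.Stable S)
    (h0 : S ≠ ⊥) : ¬ ∀ s t, LocNil ((Wc.res S hS).x (mm N s t)) := Wc_block_res WB_vs WB_vgen N hN S hS h0

end Pool.DM
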