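import Pool.Agent.Work.MP_c20ce7_dm90.T3

set_option autoImplicit false

/-! The order filtration and the symbol calculus. -/

open MvPolynomial

noncomputable section

namespace Pool.DM

variable {σ : Type}

/-- The weight `0` for the coordinates and `1` for the covectors. -/
def xiw : σ ⊕ σ → ℤ := Sum.elim (fun _ => 0) (fun _ => 1)

/-- Total symbols of order at most `k` (degree in the covectors). -/
def ordF (σ : Type) (k : ℤ) : Submodule ℂ (MvPolynomial (σ ⊕ σ) ℂ) where
  carrier := {p | ∀ m, coeff m p ≠ 0 → Finsupp.weight xiw m ≤ k}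
  add_mem' := by
    intro p q hp hq m hm
    by_cases h : coeff m p = 0
    · refine hq m fun h' => hm ?_
      rw [coeff_add, h, h', add_zero]
    · exact hp m h
  zero_mem' := by
    intro m hm
    simp at hm
  smul_mem' := by
    intro c p hp m hm
    refine hp m fun h => hm ?_
    rw [coeff_smul, h, smul_zero]

/-- The part of degree `k` in the covectors. -/
def symb (k : ℤ) : MvPolynomial (σ ⊕ σ) ℂ →ₗ[ℂ] MvPolynomial (σ ⊕ σ) ℂ :=
  weightedHomogeneousComponent xiw k

theorem mem_ordF {k : ℤ} {p : MvPolynomial (σ ⊕ σ) ℂ} :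
    p ∈ ordF σ k ↔ ∀ m, coeff m p ≠ 0 → Finsupp.weight xiw m ≤ k := Iff.rfl

theorem coeff_symb (k : ℤ) (p : MvPolynomial (σ ⊕ σ) ℂ) (m : σ ⊕ σ →₀ ℕ) :
    coeff m (symb k p) = if Finsupp.weight xiw m = k then coeff m p else 0 := by
  classical
  rw [symb, coeff_weightedHomogeneousComponent]

theorem xiw_nonneg (m : σ ⊕ σ →₀ ℕ) : 0 ≤ Finsupp.weight (xiw : σ ⊕ σ → ℤ) m := by
  rw [Finsupp.weight_apply]
  refine Finset.sum_nonneg fun i _ => ?_
  rcases i with i | i <;> simp [xiw]

theorem ordF_mono {a b : ℤ} (h : a ≤ b) {p : MvPolynomial (σ ⊕ σ) ℂ} (hp : p ∈ ordF σ a) :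
    p ∈ ordF σ b := fun m hm => (hp m hm).trans h

theorem ordF_neg {k : ℤ} (hk : k < 0) {p : MvPolynomial (σ ⊕ σ) ℂ} (hp : p ∈ ordF σ k) :
    p = 0 := by
  ext m
  rw [coeff_zero]
  by_contra h
  have h1 := hp m h
  have h2 := xiw_nonneg (σ := σ) m
  omega

theorem ordF_monomial {k : ℤ} (m : σ ⊕ σ →₀ ℕ) (c : ℂ) (h : Finsupp.weight xiw m ≤ k) :
    monomial m c ∈ ordF σ k := by
  classical
  intro m' hm'
  rw [coeff_monomial] at hm'
  by_cases e : m = m'
  · rw [← e]
    exact h
  · simp [e] at hm'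

theorem exists_ordF (p : MvPolynomial (σ ⊕ σ) ℂ) : ∃ k : ℕ, p ∈ ordF σ k := by
  refine ⟨p.support.sup fun m => (Finsupp.weight xiw m : ℤ).toNat, fun m hm => ?_⟩
  have h := Finset.le_sup (f := fun m => (Finsupp.weight (xiw : σ ⊕ σ → ℤ) m).toNat)
    (mem_support_iff.2 hm)
  have h2 := xiw_nonneg (σ := σ) m
  have h3 : ((Finsupp.weight (xiw : σ ⊕ σ → ℤ) m).toNat : ℤ) = Finsupp.weight xiw m :=
    Int.toNat_of_nonneg h2
  rw [← h3]
  exact_mod_cast h

theorem ordF_mul {a b : ℤ} {p q : MvPolynomial (σ ⊕ σ) ℂ} (hp : p ∈ ordF σ a)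
    (hq : q ∈ ordF σ b) : p * q ∈ ordF σ (a + b) := by
  classical
  intro m hm
  rw [coeff_mul] at hm
  obtain ⟨⟨m1, m2⟩, hx, hne⟩ := Finset.exists_ne_zero_of_sum_ne_zero hm
  rw [Finset.HasAntidiagonal.mem_antidiagonal] at hx
  simp only at hx hne
  have h1 := hp m1 (left_ne_zero_of_mul hne)
  have h2 := hq m2 (right_ne_zero_of_mul hne)
  rw [← hx, map_add]
  exact add_le_add h1 h2

theorem symb_mul {a b : ℤ} {p q : MvPolynomial (σ ⊕ σ) ℂ} (hp : p ∈ ordF σ a)
    (hq : q ∈ ordF σ b) : symb (a + b) (p * q) = symb a p * symb b q := by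
  classical
  ext m
  rw [coeff_symb, coeff_mul, coeff_mul]
  split_ifs with h
  · refine Finset.sum_congr rfl fun x hx => ?_
    rw [Finset.HasAntidiagonal.mem_antidiagonal] at hx
    rw [coeff_symb, coeff_symb]
    by_cases h0 : coeff x.1 p * coeff x.2 q = 0
    · rcases mul_eq_zero.1 h0 with h1 | h1 <;> simp [h1]
    · have h1 := hp x.1 (left_ne_zero_of_mul h0)
      have h2 := hq x.2 (right_ne_zero_of_mul h0)
      rw [← hx, map_add] at h
      rw [if_pos (by omega), if_pos (by omega)]
  · symm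
    refine Finset.sum_eq_zero fun x hx => ?_
    rw [Finset.HasAntidiagonal.mem_antidiagonal] at hx
    rw [coeff_symb, coeff_symb]
    rw [← hx, map_add] at h
    by_cases h1 : Finsupp.weight xiw x.1 = a
    · have h3 : ¬ Finsupp.weight xiw x.2 = b := fun h2 => h (by rw [h1, h2])
      rw [if_pos h1, if_neg h3, mul_zero]
    · rw [if_neg h1, zero_mul]

theorem symb_eq_zero {a k : ℤ} {p : MvPolynomial (σ ⊕ σ) ℂ} (hp : p ∈ ordF σ a) (h : a < k) :
    symb k p = 0 := by
  ext m
  rw [coeff_symb, coeff_zero]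
  split_ifs with h1
  · by_contra h2
    have := hp m h2
    omega
  · rfl

theorem inl_mem (f : MvPolynomial σ ℂ) : rename Sum.inl f ∈ ordF σ 0 := by
  induction f using MvPolynomial.induction_on with
  | C a =>
    rw [rename_C, C_apply]
    refine ordF_monomial _ _ ?_
    simp
  | add p q hp hq =>
    rw [map_add]
    exact add_mem hp hq
  | mul_X p i hp =>
    rw [map_mul, rename_X]
    have h := ordF_mul hp (ordF_monomial (Finsupp.single (Sum.inl i) 1) 1 (k := 0)
      (by simp [Finsupp.weight_single, xiw]))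
    rw [add_zero] at h
    exact h

theorem symb_inl (f : MvPolynomial σ ℂ) : symb 0 (rename Sum.inl f) = rename Sum.inl f := by
  ext m
  rw [coeff_symb]
  split_ifs with h
  · rfl
  · by_contra h2
    have h3 := inl_mem f m (Ne.symm h2)
    have h4 := xiw_nonneg (σ := σ) m
    omega

theorem Xinr_mem (i : σ) : (X (Sum.inr i) : MvPolynomial (σ ⊕ σ) ℂ) ∈ ordF σ 1 :=
  ordF_monomial _ _ (by simp [Finsupp.weight_single, xiw])

theorem Xinl_mem (i : σ) : (X (Sum.inl i) : MvPolynomial (σ ⊕ σ) ℂ) ∈ ordF σ 0 :=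
  ordF_monomial _ _ (by simp [Finsupp.weight_single, xiw])

theorem pderiv_mem [DecidableEq σ] (s : σ ⊕ σ) {k : ℤ} {p : MvPolynomial (σ ⊕ σ) ℂ}
    (hp : p ∈ ordF σ k) : pderiv s p ∈ ordF σ (k - xiw s) := by
  intro m hm
  rw [coeff_pderiv] at hm
  have h := hp _ (left_ne_zero_of_mul hm)
  rw [map_add, Finsupp.weight_single, one_smul] at h
  omega

theorem WMod.x_mul_nf93 [Fintype σ] [DecidableEq σ] {L : Type} [AddCommGroup L] [Module ℂ L]
    (W : WMod σ L) (f : MvPolynomial σ ℂ) :
    ∀ q : MvPolynomial (σ ⊕ σ) ℂ, W.x f * W.nf q = W.nf (rename Sum.inl f * q) := by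
  induction f using MvPolynomial.induction_on with
  | C a => intro q; rw [W.x_C, rename_C, ← smul_eq_C_mul, map_smul]; simp
  | add f g hf hg => intro q; rw [map_add, add_mul, hf, hg, map_add, add_mul, map_add]
  | mul_X f i hf =>
    intro q
    rw [map_mul W.x, mul_assoc, W.x_mul_nf, hf, map_mul (rename Sum.inl) f (X i), rename_X,
      mul_assoc]

/-- Composition of normally ordered operators: the leading term is the product of the symbols. -/
theorem WMod.nf_comp [Fintype σ] [DecidableEq σ] {L : Type} [AddCommGroup L] [Module ℂ L]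
    (W : WMod σ L) {a b : ℤ} {p q : MvPolynomial (σ ⊕ σ) ℂ} (hp : p ∈ ordF σ a)
    (hq : q ∈ ordF σ b) :
    ∃ r ∈ ordF σ (a + b - 1), W.nf p * W.nf q = W.nf (p * q + r) := by
  -- powers of the derivations
  have key : ∀ β : σ →₀ ℕ, ∀ (b : ℤ) (q : MvPolynomial (σ ⊕ σ) ℂ), q ∈ ordF σ b →
      ∃ r ∈ ordF σ ((β.sum fun _ e => (e : ℤ)) + b - 1),
        W.d (monomial β 1) * W.nf q = W.nf (rename Sum.inr (monomial β 1) * q + r) := by
    intro β
    induction β using Finsupp.induction_linear with
    | zero =>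
      intro b q hq
      refine ⟨0, zero_mem _, ?_⟩
      simp
    | add β₁ β₂ h₁ h₂ =>
      intro b q hq
      obtain ⟨r₂, hr₂, e₂⟩ := h₂ b q hq
      have hm : ∀ β : σ →₀ ℕ, rename Sum.inr (monomial β (1 : ℂ)) ∈
          ordF σ (β.sum fun _ e => (e : ℤ)) := by
        intro β
        rw [rename_monomial]
        refine ordF_monomial _ _ (le_of_eq ?_)
        rw [Finsupp.weight_apply, Finsupp.sum_mapDomain_index_inj Sum.inr_injective]
        simp [xiw]
      have hq' : rename Sum.inr (monomial β₂ 1) * q + r₂ ∈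
          ordF σ ((β₂.sum fun _ e => (e : ℤ)) + b) :=
        add_mem (ordF_mul (hm β₂) hq) (ordF_mono (by omega) hr₂)
      obtain ⟨r₁, hr₁, e₁⟩ := h₁ _ _ hq'
      refine ⟨rename Sum.inr (monomial β₁ 1) * r₂ + r₁, add_mem ?_ ?_, ?_⟩
      · refine ordF_mono (le_of_eq ?_) (ordF_mul (hm β₁) hr₂)
        rw [Finsupp.sum_add_index' (fun _ => by simp) (fun _ _ _ => by push_cast; ring)]
        ring
      · refine ordF_mono (le_of_eq ?_) hr₁
        rw [Finsupp.sum_add_index' (fun _ => by simp) (fun _ _ _ => by push_cast; ring)]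
        ring
      · rw [← mul_one (1 : ℂ), ← monomial_mul, map_mul, mul_assoc, mul_one, e₂, e₁, map_mul]
        congr 1
        ring
    | single i n =>
      induction n with
      | zero =>
        intro b q hq
        refine ⟨0, zero_mem _, ?_⟩
        simp
      | succ n ih =>
        intro b q hq
        have h1 : (monomial (Finsupp.single i (n + 1)) (1 : ℂ)) =
            monomial (Finsupp.single i n) 1 * X i := by
          rw [X, monomial_mul, mul_one, ← Finsupp.single_add]
        have hX : X (Sum.inr i) * q ∈ ordF σ (1 + b) := ordF_mul (Xinr_mem i) hq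
        have hd : pderiv (Sum.inl i) q ∈ ordF σ b := by
          simpa [xiw] using pderiv_mem (Sum.inl i) hq
        obtain ⟨r, hr, e⟩ := ih (1 + b) (X (Sum.inr i) * q + pderiv (Sum.inl i) q)
          (add_mem hX (ordF_mono (by omega) hd))
        refine ⟨rename Sum.inr (monomial (Finsupp.single i n) 1) * pderiv (Sum.inl i) q + r,
          add_mem ?_ ?_, ?_⟩
        · have hm : rename Sum.inr (monomial (Finsupp.single i n) (1 : ℂ)) ∈ ordF σ n := by
            rw [rename_monomial]
            refine ordF_monomial _ _ (le_of_eq ?_)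
            rw [Finsupp.mapDomain_single, Finsupp.weight_single]
            simp [xiw]
          refine ordF_mono (le_of_eq ?_) (ordF_mul hm hd)
          rw [Finsupp.sum_single_index (by simp)]
          push_cast
          ring
        · refine ordF_mono (le_of_eq ?_) hr
          rw [Finsupp.sum_single_index (by simp), Finsupp.sum_single_index (by simp)]
          push_cast
          ring
        · rw [h1, map_mul, mul_assoc, W.d_mul_nf, e, map_mul, rename_X]
          congr 1
          ring
  -- monomials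
  have key2 : ∀ m ∈ p.support, ∃ r ∈ ordF σ (a + b - 1),
      W.nf (monomial m (coeff m p)) * W.nf q = W.nf (monomial m (coeff m p) * q + r) := by
    intro m hm
    obtain ⟨r, hr, e⟩ := key (Finsupp.sumFinsuppEquivProdFinsupp m).2 b q hq
    have hw : Finsupp.weight xiw m =
        (Finsupp.sumFinsuppEquivProdFinsupp m).2.sum fun _ e => (e : ℤ) := by
      conv_lhs => rw [← Finsupp.sumFinsuppEquivProdFinsupp.symm_apply_apply m]
      rw [← Prod.mk.eta (p := Finsupp.sumFinsuppEquivProdFinsupp m), ← sum_split, map_add,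
        Finsupp.weight_apply, Finsupp.weight_apply,
        Finsupp.sum_mapDomain_index_inj Sum.inl_injective,
        Finsupp.sum_mapDomain_index_inj Sum.inr_injective]
      simp [xiw]
    have hma := hp m (mem_support_iff.1 hm)
    refine ⟨rename Sum.inl (monomial (Finsupp.sumFinsuppEquivProdFinsupp m).1 (coeff m p)) * r,
      ordF_mono ?_ (ordF_mul (inl_mem _) hr), ?_⟩
    · rw [hw] at hma
      omega
    · have hx : ∀ (f : MvPolynomial σ ℂ) (q : MvPolynomial (σ ⊕ σ) ℂ),
          W.x f * W.nf q = W.nf (rename Sum.inl f * q) := fun f q => W.x_mul_nf93 f q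
      have h1 : (monomial m (coeff m p) : MvPolynomial (σ ⊕ σ) ℂ) =
          rename Sum.inl (monomial (Finsupp.sumFinsuppEquivProdFinsupp m).1 (coeff m p)) *
            rename Sum.inr (monomial (Finsupp.sumFinsuppEquivProdFinsupp m).2 1) := by
        rw [rename_monomial, rename_monomial, monomial_mul, mul_one, sum_split,
          Prod.mk.eta, Equiv.symm_apply_apply]
      rw [h1, W.nf_mul, mul_assoc, e, hx]
      congr 1
      ring
  choose! r hr e using key2
  refine ⟨∑ m ∈ p.support, r m, Submodule.sum_mem _ fun m hm => hr m hm, ?_⟩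
  have h1 : W.nf p * W.nf q =
      ∑ m ∈ p.support, W.nf (monomial m (coeff m p)) * W.nf q := by
    conv_lhs => rw [p.as_sum, map_sum, Finset.sum_mul]
  have h2 : p * q + ∑ m ∈ p.support, r m =
      ∑ m ∈ p.support, (monomial m (coeff m p) * q + r m) := by
    rw [Finset.sum_add_distrib, ← Finset.sum_mul, ← p.as_sum]
  rw [h1, h2, map_sum]
  exact Finset.sum_congr rfl fun m hm => e m hm

end Pool.DM
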