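import Pool.Agent.Work.MP_c20ce7_up.B_FOU

set_option autoImplicit false
set_option linter.unusedSectionVars false

/-!
# Conormal points from a degree filtration

`V : WMod τ B`, `S` a set of coordinates. A filtration `G n`, `n : ℤ`, of `B` such that the functions
`x_k` do not raise the degree and lower it for `k` in `S`, the derivations `d_k` do not raise the
degree for `k` not in `S` and raise it by at most one for `k` in `S`, and such that no nonzero
polynomial in `x_k` (`k` not in `S`) and `d_k` (`k` in `S`), homogeneous of degree `m` in the `d_k`,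
sends `G n \ G (n - 1)` into `G (n + m - 1)`. Then every point `(t, 0; 0, η)` is in the
characteristic variety of every nonzero vector.
-/

open MvPolynomial

noncomputable section

namespace Pool.DM

variable {τ : Type} [Fintype τ] [DecidableEq τ] {B : Type} [AddCommGroup B] [Module ℂ B]

/-- The filtration of the text. -/
structure TopFil (V : WMod τ B) (S : τ → Prop) (G : ℤ → Submodule ℂ B) : Prop where
  mono : ∀ n, G n ≤ G (n + 1)
  deg : ∀ u : B, u ≠ 0 → ∃ n, u ∈ G n ∧ u ∉ G (n - 1)
  xT : ∀ k, ¬ S k → ∀ n, ∀ u ∈ G n, V.x (X k) u ∈ G n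
  xS : ∀ k, S k → ∀ n, ∀ u ∈ G n, V.x (X k) u ∈ G (n - 1)
  dT : ∀ k, ¬ S k → ∀ n, ∀ u ∈ G n, V.d (X k) u ∈ G n
  dS : ∀ k, S k → ∀ n, ∀ u ∈ G n, V.d (X k) u ∈ G (n + 1)
  top : ∀ (m : ℕ) (q : MvPolynomial (τ ⊕ τ) ℂ), q ≠ 0 →
    (∀ s, coeff s q ≠ 0 → Finsupp.weight (xiw : τ ⊕ τ → ℤ) s = m ∧
      (∀ k, S k → s (Sum.inl k) = 0) ∧ (∀ k, ¬ S k → s (Sum.inr k) = 0)) →
    ∀ n, ∀ u ∈ G n, u ∉ G (n - 1) → V.nf q u ∉ G (n + m - 1)

open Classical in
/-- The degree of a monomial: functions of `S` have degree `-1`, derivations of `S` degree `1`. -/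
def TopFil_w (S : τ → Prop) : τ ⊕ τ → ℤ :=
  Sum.elim (fun k => if S k then -1 else 0) (fun k => if S k then 1 else 0)

theorem TopFil.mono' {V : WMod τ B} {S : τ → Prop} {G : ℤ → Submodule ℂ B} (h : TopFil V S G)
    {a b : ℤ} (hab : a ≤ b) : G a ≤ G b := by
  obtain ⟨k, rfl⟩ : ∃ k : ℕ, b = a + k := ⟨(b - a).toNat, by omega⟩
  clear hab
  induction k with
  | zero => simp
  | succ k ih =>
    refine ih.trans ?_
    have := h.mono (a + k)
    push_cast
    rwa [← add_assoc]

theorem TopFil.mon {V : WMod τ B} {S : τ → Prop} {G : ℤ → Submodule ℂ B} (h : TopFil V S G)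
    (c : ℂ) : ∀ (N : ℕ) (s : τ ⊕ τ →₀ ℕ), s.degree = N → ∀ n, ∀ u ∈ G n,
      V.nf (monomial s c) u ∈ G (n + Finsupp.weight (TopFil_w S) s) := by
  classical
  intro N
  induction N with
  | zero =>
    intro s hs n u hu
    rw [Finsupp.degree_eq_zero_iff] at hs
    subst hs
    rw [← C_apply, FOU_nf_C, map_zero, add_zero]
    exact (G n).smul_mem c hu
  | succ N ih =>
    intro s hs n u hu
    -- first the functions
    by_cases hx : ∃ k, s (Sum.inl k) ≠ 0
    · obtain ⟨k, hk⟩ := hx
      obtain ⟨t, rfl⟩ : ∃ t, s = t + Finsupp.single (Sum.inl k) 1 := by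
        refine ⟨s - Finsupp.single (Sum.inl k) 1, ?_⟩
        rw [tsub_add_cancel_of_le]
        rw [Finsupp.single_le_iff]
        omega
      rw [map_add, Finsupp.degree_single] at hs
      have hmon : (monomial (t + Finsupp.single (Sum.inl k) 1) c : MvPolynomial (τ ⊕ τ) ℂ) =
          X (Sum.inl k) * monomial t c := by
        rw [X, monomial_mul, one_mul, add_comm]
      rw [map_add, Finsupp.weight_single, one_smul, hmon, ← V.x_mul_nf, Module.End.mul_apply]
      have h1 := ih t (by omega) n u hu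
      by_cases hS : S k
      · have h2 := h.xS k hS _ _ h1
        simp only [TopFil_w, Sum.elim_inl, hS, if_true]
        rwa [← add_assoc, ← sub_eq_add_neg]
      · have h2 := h.xT k hS _ _ h1
        simp only [TopFil_w, Sum.elim_inl, hS, if_false]
        rwa [add_zero]
    · obtain ⟨v, hv⟩ : ∃ v, s v ≠ 0 := by
        by_contra h
        have h' : ∀ v, s v = 0 := fun v => not_not.1 fun h1 => h ⟨v, h1⟩
        have : s = 0 := Finsupp.ext h'
        rw [this, map_zero] at hs
        omega
      rcases v with k | k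
      · exact absurd ⟨k, hv⟩ hx
      · obtain ⟨t, rfl⟩ : ∃ t, s = t + Finsupp.single (Sum.inr k) 1 := by
          refine ⟨s - Finsupp.single (Sum.inr k) 1, ?_⟩
          rw [tsub_add_cancel_of_le]
          rw [Finsupp.single_le_iff]
          omega
        rw [map_add, Finsupp.degree_single] at hs
        have hmon : (monomial (t + Finsupp.single (Sum.inr k) 1) c : MvPolynomial (τ ⊕ τ) ℂ) =
            X (Sum.inr k) * monomial t c := by
          rw [X, monomial_mul, one_mul, add_comm]
        rw [map_add, Finsupp.weight_single, one_smul, hmon, ← V.nf_mul_d, Module.End.mul_apply]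
        by_cases hS : S k
        · have h1 := ih t (by omega) _ _ (h.dS k hS n u hu)
          simp only [TopFil_w, Sum.elim_inr, hS, if_true]
          rwa [add_comm (Finsupp.weight _ t) 1, ← add_assoc]
        · have h1 := ih t (by omega) _ _ (h.dT k hS n u hu)
          simp only [TopFil_w, Sum.elim_inr, hS, if_false]
          rwa [add_zero]

theorem TopFil.weight_le (S : τ → Prop) (s : τ ⊕ τ →₀ ℕ) :
    Finsupp.weight (TopFil_w S) s ≤ Finsupp.weight (xiw : τ ⊕ τ → ℤ) s := by
  rw [Finsupp.weight_apply, Finsupp.weight_apply]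
  refine Finset.sum_le_sum fun v _ => ?_
  rcases v with k | k <;> by_cases hS : S k <;> simp [TopFil_w, xiw, hS]

theorem TopFil.weight_lt (S : τ → Prop) (s : τ ⊕ τ →₀ ℕ)
    (hs : ¬ ((∀ k, S k → s (Sum.inl k) = 0) ∧ (∀ k, ¬ S k → s (Sum.inr k) = 0))) :
    Finsupp.weight (TopFil_w S) s ≤ Finsupp.weight (xiw : τ ⊕ τ → ℤ) s - 1 := by
  have key : ∃ v, s v ≠ 0 ∧ TopFil_w S v < xiw v := by
    by_contra hc
    refine hs ⟨fun k hk => ?_, fun k hk => ?_⟩
    · by_contra h0
      exact hc ⟨_, h0, by simp [TopFil_w, xiw, hk]⟩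
    · by_contra h0
      exact hc ⟨_, h0, by simp [TopFil_w, xiw, hk]⟩
  obtain ⟨v, hv, hlt⟩ := key
  have : Finsupp.weight (TopFil_w S) s < Finsupp.weight (xiw : τ ⊕ τ → ℤ) s := by
    rw [Finsupp.weight_apply, Finsupp.weight_apply]
    refine Finset.sum_lt_sum (fun v _ => ?_) ⟨v, Finsupp.mem_support_iff.2 hv, ?_⟩
    · rcases v with k | k <;> by_cases hS : S k <;> simp [TopFil_w, xiw, hS]
    · simp only [nsmul_eq_mul]
      exact mul_lt_mul_of_pos_left hlt (by exact_mod_cast Nat.pos_of_ne_zero hv)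
  omega

/-- The points `(t, 0; 0, η)` are in the characteristic variety of every nonzero vector. -/
theorem TopFil.inChAt {V : WMod τ B} {S : τ → Prop} {G : ℤ → Submodule ℂ B} (h : TopFil V S G)
    {x ξ : τ → ℂ} (hx : ∀ k, S k → x k = 0) (hξ : ∀ k, ¬ S k → ξ k = 0) (u : B) (hu : u ≠ 0) :
    V.InChAt u x ξ := by
  classical
  intro m P hP hPu
  rw [FOU_ordF] at hP
  rw [FOU_symb]
  obtain ⟨n, hn, hn1⟩ := h.deg u hu
  -- the good part of the symbol
  obtain ⟨Gd, hGd⟩ : ∃ Gd : Finset (τ ⊕ τ →₀ ℕ), Gd = P.support.filter (fun s =>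
    Finsupp.weight (xiw : τ ⊕ τ → ℤ) s = m ∧
      (∀ k, S k → s (Sum.inl k) = 0) ∧ (∀ k, ¬ S k → s (Sum.inr k) = 0)) := ⟨_, rfl⟩
  obtain ⟨q, hq⟩ : ∃ q : MvPolynomial (τ ⊕ τ) ℂ, q = ∑ s ∈ Gd, monomial s (coeff s P) := ⟨_, rfl⟩
  have hcq : ∀ s, coeff s q = if s ∈ Gd then coeff s P else 0 := by
    intro s
    rw [hq, coeff_sum]
    simp only [coeff_monomial]
    rw [Finset.sum_ite_eq' Gd s (fun s => coeff s P)]
  have hmem : V.nf q u ∈ G (n + m - 1) := by
    have h1 : V.nf (P - q) u ∈ G (n + m - 1) := by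
      rw [(P - q).as_sum, map_sum, LinearMap.sum_apply]
      refine Submodule.sum_mem _ fun s hs => ?_
      have h2 := h.mon (coeff s (P - q)) _ s rfl n u hn
      refine h.mono' ?_ h2
      rw [mem_support_iff, coeff_sub, hcq] at hs
      have hs' : s ∉ Gd := by
        intro h3
        rw [if_pos h3, sub_self] at hs
        exact hs rfl
      rw [if_neg hs', sub_zero] at hs
      have h3 := hP s hs
      rw [hGd, Finset.mem_filter, not_and] at hs'
      have h4 := hs' (mem_support_iff.2 hs)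
      by_cases h5 : Finsupp.weight (xiw : τ ⊕ τ → ℤ) s = m
      · have h6 := TopFil.weight_lt S s (fun h7 => h4 ⟨h5, h7⟩)
        omega
      · have h6 := TopFil.weight_le S s
        omega
    have h2 : V.nf q u = - V.nf (P - q) u := by
      rw [map_sub, LinearMap.sub_apply, hPu, zero_sub, neg_neg]
    rw [h2]
    exact (G _).neg_mem h1
  have hq0 : q = 0 := by
    by_contra hne
    refine h.top m q hne ?_ n u hn hn1 hmem
    intro s hs
    rw [hcq] at hs
    have h3 : s ∈ Gd := by
      by_contra h4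
      rw [if_neg h4] at hs
      exact hs rfl
    rw [hGd, Finset.mem_filter] at h3
    exact h3.2
  -- evaluation
  have hev : eval (Sum.elim x ξ) (symb (m : ℤ) P) = eval (Sum.elim x ξ) q := by
    have h1 : symb (m : ℤ) P = ∑ s ∈ P.support, symb (m : ℤ) (monomial s (coeff s P)) := by
      conv_lhs => rw [P.as_sum, map_sum]
    rw [h1, map_sum, hq, map_sum, hGd, Finset.sum_filter]
    refine Finset.sum_congr rfl fun s _ => ?_
    by_cases h5 : Finsupp.weight (xiw : τ ⊕ τ → ℤ) s = m
    · have h4 : symb (m : ℤ) (monomial s (coeff s P)) = monomial s (coeff s P) := by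
        ext t
        rw [coeff_symb]
        split_ifs with h6
        · rfl
        · rw [coeff_monomial, if_neg]
          rintro rfl
          exact h6 h5
      rw [h4]
      by_cases h6 : (∀ k, S k → s (Sum.inl k) = 0) ∧ (∀ k, ¬ S k → s (Sum.inr k) = 0)
      · rw [if_pos ⟨h5, h6⟩]
      · rw [if_neg (fun h7 => h6 h7.2), eval_monomial]
        have h7 : ∃ v, s v ≠ 0 ∧ Sum.elim x ξ v = 0 := by
          by_contra hc
          refine h6 ⟨fun k hk => ?_, fun k hk => ?_⟩
          · by_contra h0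
            exact hc ⟨_, h0, hx k hk⟩
          · by_contra h0
            exact hc ⟨_, h0, hξ k hk⟩
        obtain ⟨v, hv, hv0⟩ := h7
        rw [Finsupp.prod, Finset.prod_eq_zero (Finsupp.mem_support_iff.2 hv), mul_zero]
        rw [hv0, zero_pow hv]
    · have h4 : symb (m : ℤ) (monomial s (coeff s P)) = 0 := by
        ext t
        rw [coeff_symb, coeff_zero]
        split_ifs with h6
        · rw [coeff_monomial, if_neg]
          rintro rfl
          exact h5 h6
        · rfl
      rw [h4, map_zero, if_neg (fun h7 => h5 h7.1)]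
  rw [hev, hq0, map_zero]

end Pool.DM
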